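import Pool.Agent.J4H41.GC.Half

/-!
# QE: quasi-equivalence of heights on plane curves, uniform in the curve

Part of project GC (helper27), written by helper41.
-/

set_option autoImplicit false

open Height Polynomial
open scoped Polynomial.Bivariate

namespace Pool.Agent.J4H41.GC

open Pool.Agent.J4H27.GC

section transfer

variable {K σ : Type} [Field K] [DecidableEq σ]

/-- A polynomial in the variables `i` (outer) and `j` (inner). -/
noncomputable def phi2 (K : Type) [Field K] (i j : σ) : MvPolynomial σ K →ₐ[K] K[X][Y] :=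
  MvPolynomial.aeval (fun s => if s = i then (X : K[X][Y]) else if s = j then C X else 0)

lemma phi2_monomial {i j : σ} (hij : i ≠ j) (m : σ →₀ ℕ) (hm : ∀ s, s ≠ i → s ≠ j → m s = 0)
    (c : K) : phi2 K i j (MvPolynomial.monomial m c) = monomial (m i) (monomial (m j) c) := by
  have h1 : m = Finsupp.single i (m i) + Finsupp.single j (m j) := by
    ext s
    by_cases h1 : s = i
    · subst h1
      simp [hij.symm]
    · by_cases h2 : s = j
      · subst h2
        simp [hij]
      · simp [hm s h1 h2, Ne.symm h1, Ne.symm h2]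
  have h2 : MvPolynomial.monomial m c =
      MvPolynomial.C c * (MvPolynomial.X i ^ (m i) * MvPolynomial.X j ^ (m j)) := by
    conv_lhs => rw [h1]
    rw [MvPolynomial.X_pow_eq_monomial, MvPolynomial.X_pow_eq_monomial,
      MvPolynomial.monomial_mul, MvPolynomial.C_mul_monomial, one_mul, mul_one]
  rw [h2, map_mul, map_mul, map_pow, map_pow, phi2, MvPolynomial.aeval_X, MvPolynomial.aeval_X,
    if_pos rfl, if_neg hij.symm, if_pos rfl]
  have h3 : (MvPolynomial.aeval (fun s => if s = i then (X : K[X][Y]) else if s = j then C X else 0))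
      (MvPolynomial.C c : MvPolynomial σ K) = C (C c) := by
    rw [MvPolynomial.aeval_C]
    rfl
  rw [h3, ← C_mul_X_pow_eq_monomial, ← C_mul_X_pow_eq_monomial, C_mul, C_pow]
  ring

lemma vars_zero {i j : σ} {P : MvPolynomial σ K} (hP : P.vars ⊆ {i, j}) {m : σ →₀ ℕ}
    (hm : m ∈ P.support) : ∀ s, s ≠ i → s ≠ j → m s = 0 := by
  intro s h1 h2
  apply MvPolynomial.mem_support_notMem_vars_zero hm
  intro h
  have := hP h
  simp only [Finset.mem_insert, Finset.mem_singleton] at this
  tauto

lemma phi2_coeff {i j : σ} (hij : i ≠ j) {P : MvPolynomial σ K} (hP : P.vars ⊆ {i, j}) (k l : ℕ) :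
    ((phi2 K i j P).coeff k).coeff l =
      P.coeff (Finsupp.single i k + Finsupp.single j l) := by
  have h1 : phi2 K i j P = ∑ m ∈ P.support, monomial (m i) (monomial (m j) (P.coeff m)) := by
    conv_lhs => rw [P.as_sum, map_sum]
    refine Finset.sum_congr rfl fun m hm => ?_
    exact phi2_monomial hij m (vars_zero hP hm) _
  rw [h1, finsetSum_coeff, finsetSum_coeff]
  have h2 : ∀ m ∈ P.support, m ≠ Finsupp.single i k + Finsupp.single j l →
      ((monomial (m i) (monomial (m j) (P.coeff m)) : K[X][Y]).coeff k).coeff l = 0 := by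
    intro m hm hne
    rw [coeff_monomial]
    split_ifs with h3
    · rw [coeff_monomial, if_neg]
      intro h4
      apply hne
      ext s
      by_cases h5 : s = i
      · subst h5
        simp [hij.symm, h3]
      · by_cases h6 : s = j
        · subst h6
          simp [hij, h4]
        · simp [vars_zero hP hm s h5 h6, Ne.symm h5, Ne.symm h6]
    · simp
  by_cases h3 : Finsupp.single i k + Finsupp.single j l ∈ P.support
  · rw [Finset.sum_eq_single _ h2 (fun h => absurd h3 h)]
    simp [hij, hij.symm]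
  · rw [Finset.sum_eq_zero, MvPolynomial.notMem_support_iff.1 h3]
    intro m hm
    exact h2 m hm (fun h => h3 (h ▸ hm))

lemma phi2_bd {i j : σ} (hij : i ≠ j) {P : MvPolynomial σ K} (hP : P.vars ⊆ {i, j}) :
    Bd (P.degreeOf i) (P.degreeOf j) (phi2 K i j P) := by
  intro k l h
  rw [phi2_coeff hij hP]
  by_contra hne
  have h1 := MvPolynomial.mem_support_iff.2 hne
  have h2 := MvPolynomial.monomial_le_degreeOf i h1
  have h3 := MvPolynomial.monomial_le_degreeOf j h1
  simp [hij, hij.symm] at h2 h3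
  omega

omit [DecidableEq σ] in
lemma exists_degreeOf {i : σ} {P : MvPolynomial σ K} (hP : P ≠ 0) :
    ∃ m ∈ P.support, m i = P.degreeOf i := by
  rw [MvPolynomial.degreeOf_eq_sup]
  obtain ⟨m, hm, h⟩ := Finset.exists_mem_eq_sup P.support
    (MvPolynomial.support_nonempty.2 hP) (fun m => m i)
  exact ⟨m, hm, h.symm⟩

lemma natDegree_eq {n : ℕ} {P : K[X][Y]} (h1 : P.natDegree ≤ n) (h2 : P.coeff n ≠ 0) :
    P.natDegree = n :=
  le_antisymm h1 (le_natDegree_of_ne_zero h2)

lemma eq_single_add {i j : σ} (hij : i ≠ j) {P : MvPolynomial σ K} (hP : P.vars ⊆ {i, j})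
    {m : σ →₀ ℕ} (hm : m ∈ P.support) :
    Finsupp.single i (m i) + Finsupp.single j (m j) = m := by
  ext s
  by_cases h5 : s = i
  · subst h5
    simp [hij.symm]
  · by_cases h6 : s = j
    · subst h6
      simp [hij]
    · simp [vars_zero hP hm s h5 h6, Ne.symm h5, Ne.symm h6]

lemma phi2_natDegree {i j : σ} (hij : i ≠ j) {P : MvPolynomial σ K} (hP : P.vars ⊆ {i, j})
    (h0 : P ≠ 0) : (phi2 K i j P).natDegree = P.degreeOf i := by
  refine natDegree_eq (phi2_bd hij hP).natDegree_le ?_
  obtain ⟨m, hm, h⟩ := exists_degreeOf (i := i) h0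
  intro h1
  have h2 := phi2_coeff hij hP (m i) (m j)
  rw [eq_single_add hij hP hm, h, h1, coeff_zero] at h2
  exact MvPolynomial.mem_support_iff.1 hm h2.symm

lemma phi2_swap {i j : σ} (hij : i ≠ j) {P : MvPolynomial σ K} (hP : P.vars ⊆ {i, j}) :
    Bivariate.swap (phi2 K i j P) = phi2 K j i P := by
  ext k l
  have hP' : P.vars ⊆ {j, i} := by rwa [Finset.pair_comm]
  rw [swap_coeff, phi2_coeff hij hP, phi2_coeff hij.symm hP', add_comm]

/-- The inverse substitution. -/
noncomputable def psi2 (K : Type) [Field K] {σ : Type} (i j : σ) :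
    K[X][Y] →ₐ[K] MvPolynomial σ K :=
  aevalAeval (MvPolynomial.X j) (MvPolynomial.X i)

lemma phi2_psi2 {i j : σ} (hij : i ≠ j) (P : K[X][Y]) : phi2 K i j (psi2 K i j P) = P := by
  have h : (phi2 K i j).comp (psi2 K i j) = AlgHom.id K K[X][Y] := by
    apply (aevalAevalEquiv K K[X][Y]).symm.injective
    refine Prod.ext ?_ ?_
    · change phi2 K i j (psi2 K i j (C X)) = C X
      rw [psi2, aevalAeval_X, phi2, MvPolynomial.aeval_X, if_neg hij.symm, if_pos rfl]
    · change phi2 K i j (psi2 K i j X) = X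
      rw [psi2, aevalAeval_Y, phi2, MvPolynomial.aeval_X, if_pos rfl]
  exact congrArg (fun f : K[X][Y] →ₐ[K] K[X][Y] => f P) h

lemma psi2_phi2 {i j : σ} (hij : i ≠ j) {P : MvPolynomial σ K} (hP : P.vars ⊆ {i, j}) :
    psi2 K i j (phi2 K i j P) = P := by
  have h := MvPolynomial.hom_congr_vars (R := K) (p₁ := P) (p₂ := P)
    (f₁ := ((psi2 K i j).comp (phi2 K i j)).toRingHom) (f₂ := RingHom.id _) ?_ ?_ rfl
  · exact h
  · apply RingHom.ext
    intro c
    have h1 := ((psi2 K i j).comp (phi2 K i j)).commutes c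
    exact h1
  · intro s hs _
    have h1 := hP hs
    simp only [Finset.mem_insert, Finset.mem_singleton] at h1
    change psi2 K i j (phi2 K i j (MvPolynomial.X s)) = MvPolynomial.X s
    rw [phi2, MvPolynomial.aeval_X]
    rcases h1 with rfl | rfl
    · rw [if_pos rfl, psi2, aevalAeval_Y]
    · rw [if_neg hij.symm, if_pos rfl, psi2, aevalAeval_X]

lemma phi2_irreducible {i j : σ} (hij : i ≠ j) {P : MvPolynomial σ K} (hP : P.vars ⊆ {i, j})
    (h : Irreducible P) : Irreducible (phi2 K i j P) := by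
  refine ⟨fun hu => h.not_isUnit ?_, fun A B hAB => ?_⟩
  · rw [← psi2_phi2 hij hP]
    exact hu.map (psi2 K i j)
  · have h1 : P = psi2 K i j A * psi2 K i j B := by
      rw [← map_mul, ← hAB, psi2_phi2 hij hP]
    rcases h.isUnit_or_isUnit h1 with h2 | h2
    · left
      rw [← phi2_psi2 hij A]
      exact h2.map (phi2 K i j)
    · right
      rw [← phi2_psi2 hij B]
      exact h2.map (phi2 K i j)

lemma phi2_eval {i j : σ} (hij : i ≠ j) {P : MvPolynomial σ K} (hP : P.vars ⊆ {i, j})
    (a : σ → K) : evalEval (a j) (a i) (phi2 K i j P) = MvPolynomial.eval a P := by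
  have h := MvPolynomial.hom_congr_vars (R := K) (p₁ := P) (p₂ := P)
    (f₁ := (evalEvalRingHom (a j) (a i)).comp (phi2 K i j).toRingHom) (f₂ := MvPolynomial.eval a)
    ?_ ?_ rfl
  · exact h
  · ext c
    simp [phi2]
  · intro s hs _
    have h1 := hP hs
    simp only [Finset.mem_insert, Finset.mem_singleton] at h1
    change evalEval (a j) (a i) (phi2 K i j (MvPolynomial.X s)) = MvPolynomial.eval a (.X s)
    rw [phi2, MvPolynomial.aeval_X, MvPolynomial.eval_X]
    rcases h1 with rfl | rfl
    · rw [if_pos rfl, evalEval_X]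
    · rw [if_neg hij.symm, if_pos rfl, evalEval_C, eval_X]

end transfer

section final

variable {K σ : Type} [Field K] [NumberField K] [DecidableEq σ]

lemma phi2_height {i j : σ} (hij : i ≠ j) {P : MvPolynomial σ K} (hP : P.vars ⊆ {i, j})
    (d e : ℕ) : logHeight (cf K d e (phi2 K i j P)) ≤ hp P := by
  rw [logHeight_eq_logHeight_restrict_support, hp]
  have h : (fun r : (cf K d e (phi2 K i j P)).support => cf K d e (phi2 K i j P) r.val) =
      (fun s : P.support => P.coeff s) ∘ (fun r : (cf K d e (phi2 K i j P)).support =>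
        (⟨Finsupp.single i (r.val.1 : ℕ) + Finsupp.single j (r.val.2 : ℕ), by
          rw [MvPolynomial.mem_support_iff, ← phi2_coeff hij hP]
          exact r.2⟩ : P.support)) := by
    funext r
    rw [cf_apply, phi2_coeff hij hP]
    rfl
  rw [h]
  exact logHeight_comp_le _ _

theorem t_QE : S_QE := by
  intro K _ _ σ _ _ α β hα hβ τ hτ
  obtain ⟨α', rfl⟩ : ∃ k, α = k + 1 := ⟨α - 1, by omega⟩
  obtain ⟨β', rfl⟩ : ∃ k, β = k + 1 := ⟨β - 1, by omega⟩
  obtain ⟨C1, hC1, h1⟩ := half (K := K) α' β' τ hτ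
  obtain ⟨C2, hC2, h2⟩ := half (K := K) β' α' τ hτ
  refine ⟨C1 + C2, fun Q i j hij hQ hv hdi hdj a ha => ?_⟩
  have hv' : Q.vars ⊆ {j, i} := by rwa [Finset.pair_comm]
  have hp1 : Prime (phi2 K i j Q) := (phi2_irreducible hij hv hQ).prime
  have hp2 : Prime (phi2 K j i Q) := (phi2_irreducible hij.symm hv' hQ).prime
  have n1 := phi2_natDegree hij hv hQ.ne_zero
  have n2 := phi2_natDegree hij.symm hv' hQ.ne_zero
  have b1 := phi2_bd hij hv
  have b2 := phi2_bd hij.symm hv'
  rw [hdi, hdj] at b1 b2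
  rw [hdi] at n1
  rw [hdj] at n2
  have e1 := h1 (phi2 K i j Q) (a i) (a j) hp1 b1 n1 (by rw [phi2_swap hij hv, n2])
    (by rw [phi2_eval hij hv, ha])
  have e2 := h2 (phi2 K j i Q) (a j) (a i) hp2 b2 n2 (by rw [phi2_swap hij.symm hv', n1])
    (by rw [phi2_eval hij.symm hv', ha])
  have l1 := phi2_height hij hv (α' + 1) (β' + 1)
  have l2 := phi2_height hij.symm hv' (β' + 1) (α' + 1)
  have hh : 0 ≤ hp Q := logHeight_nonneg _
  have hi := zero_le_logHeight₁ (a i)
  have hj := zero_le_logHeight₁ (a j)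
  have m1 : C1 * (logHeight (cf K (α' + 1) (β' + 1) (phi2 K i j Q)) + 1) ≤ C1 * (hp Q + 1) :=
    mul_le_mul_of_nonneg_left (by linarith) hC1
  have m2 : C2 * (logHeight (cf K (β' + 1) (α' + 1) (phi2 K j i Q)) + 1) ≤ C2 * (hp Q + 1) :=
    mul_le_mul_of_nonneg_left (by linarith) hC2
  have p1 : 0 ≤ C1 * (hp Q + 1) := by positivity
  have p2 : 0 ≤ C2 * (hp Q + 1) := by positivity
  have q1 : 0 ≤ τ * logHeight₁ (a i) := by positivity
  have q2 : 0 ≤ τ * logHeight₁ (a j) := by positivity
  push_cast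
  rw [abs_le, add_mul, mul_add τ]
  constructor
  · linarith
  · linarith

end final

end Pool.Agent.J4H41.GC
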