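import Pool.Agent.J4H41.GC.Lin

/-!
# Elimination of a variable and the inequality `α h(x) ≤ β h(y)` on plane curves, up to `o(h)`

Part of QE of project GC (helper27), written by helper41.
-/

set_option autoImplicit false

open Height Polynomial
open scoped Polynomial.Bivariate

namespace Pool.Agent.J4H41.GC

section biv

variable {K : Type} [Field K]

/-- The degree in the outer variable is at most `d`, in the inner variable at most `e`. -/
def Bd (d e : ℕ) (P : K[X][Y]) : Prop := ∀ i j, d < i ∨ e < j → (P.coeff i).coeff j = 0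

lemma Bd.mul {d e d' e' : ℕ} {P Q : K[X][Y]} (hP : Bd d e P) (hQ : Bd d' e' Q) :
    Bd (d + d') (e + e') (P * Q) := by
  intro i j h
  rw [coeff_mul, finsetSum_coeff]
  refine Finset.sum_eq_zero fun a ha => ?_
  rw [Finset.HasAntidiagonal.mem_antidiagonal] at ha
  rw [coeff_mul]
  refine Finset.sum_eq_zero fun b hb => ?_
  rw [Finset.HasAntidiagonal.mem_antidiagonal] at hb
  by_cases h1 : d < a.1 ∨ e < b.1
  · rw [hP _ _ h1, zero_mul]
  · rw [hQ a.2 b.2 (by omega), mul_zero]

lemma Bd.add {d e : ℕ} {P Q : K[X][Y]} (hP : Bd d e P) (hQ : Bd d e Q) : Bd d e (P + Q) := by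
  intro i j h
  rw [coeff_add, coeff_add, hP i j h, hQ i j h, add_zero]

lemma Bd.mono {d e d' e' : ℕ} {P : K[X][Y]} (hP : Bd d e P) (h1 : d ≤ d') (h2 : e ≤ e') :
    Bd d' e' P := fun i j h => hP i j (by omega)

lemma Bd.natDegree_le {d e : ℕ} {P : K[X][Y]} (hP : Bd d e P) : P.natDegree ≤ d := by
  rw [natDegree_le_iff_coeff_eq_zero]
  intro i hi
  ext j
  rw [hP i j (Or.inl hi), coeff_zero]

/-- The polynomial with given coefficients. -/
noncomputable def bp (K : Type) [Field K] (d e : ℕ) :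
    (Fin (d + 1) × Fin (e + 1) → K) →ₗ[K] K[X][Y] :=
  Fintype.linearCombination K
    (fun p : Fin (d + 1) × Fin (e + 1) => (monomial (p.1 : ℕ) (monomial (p.2 : ℕ) (1 : K)) : K[X][Y]))

lemma bp_coeff {d e : ℕ} (c : Fin (d + 1) × Fin (e + 1) → K) (i : Fin (d + 1)) (j : Fin (e + 1)) :
    ((bp K d e c).coeff i).coeff j = c (i, j) := by
  classical
  rw [bp, Fintype.linearCombination_apply, finsetSum_coeff, finsetSum_coeff,
    Finset.sum_eq_single (i, j)]
  · simp
  · rintro ⟨i', j'⟩ - hne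
    simp only [coeff_smul, coeff_monomial, smul_eq_mul]
    split_ifs with h1
    · rw [coeff_monomial, if_neg, mul_zero]
      intro h2
      apply hne
      rw [Fin.val_inj] at h1 h2
      rw [h1, h2]
    · simp
  · intro h
    exact absurd (Finset.mem_univ _) h

lemma bp_bd {d e : ℕ} (c : Fin (d + 1) × Fin (e + 1) → K) : Bd d e (bp K d e c) := by
  intro i j h
  rw [bp, Fintype.linearCombination_apply, finsetSum_coeff, finsetSum_coeff]
  refine Finset.sum_eq_zero fun p _ => ?_
  simp only [coeff_smul, coeff_monomial, smul_eq_mul]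
  split_ifs with h1
  · rw [coeff_monomial, if_neg, mul_zero]
    have := p.1.2
    have := p.2.2
    omega
  · simp

/-- The coefficients. -/
noncomputable def cf (K : Type) [Field K] (d e : ℕ) :
    K[X][Y] →ₗ[K] (Fin (d + 1) × Fin (e + 1) → K) where
  toFun P p := (P.coeff p.1).coeff p.2
  map_add' := by intros; funext p; simp
  map_smul' := by intros; funext p; simp

lemma cf_apply {d e : ℕ} (P : K[X][Y]) (p : Fin (d + 1) × Fin (e + 1)) :
    cf K d e P p = (P.coeff p.1).coeff p.2 := rfl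

lemma bp_cf {d e : ℕ} {P : K[X][Y]} (hP : Bd d e P) : bp K d e (cf K d e P) = P := by
  ext i j
  by_cases h : d < i ∨ e < j
  · rw [hP i j h, bp_bd _ i j h]
  · have hi : i < d + 1 := by omega
    have hj : j < e + 1 := by omega
    exact bp_coeff (cf K d e P) ⟨i, hi⟩ ⟨j, hj⟩

lemma cf_bp {d e : ℕ} (c : Fin (d + 1) × Fin (e + 1) → K) : cf K d e (bp K d e c) = c := by
  funext p
  exact bp_coeff c p.1 p.2

lemma bp_ne {d e : ℕ} {c : Fin (d + 1) × Fin (e + 1) → K} (h : c ≠ 0) : bp K d e c ≠ 0 := by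
  intro h1
  apply h
  rw [← cf_bp c, h1, map_zero]

lemma cf_ne {d e : ℕ} {P : K[X][Y]} (hP : Bd d e P) (h : P ≠ 0) : cf K d e P ≠ 0 := by
  intro h1
  apply h
  rw [← bp_cf hP, h1, map_zero]

lemma evalEval_bp {d e : ℕ} (c : Fin (d + 1) × Fin (e + 1) → K) (x y : K) :
    evalEval y x (bp K d e c) = ∑ p, c p * (x ^ (p.1 : ℕ) * y ^ (p.2 : ℕ)) := by
  rw [bp, Fintype.linearCombination_apply, evalEval_finsetSum]
  refine Finset.sum_congr rfl fun p _ => ?_
  rw [evalEval_smul, smul_eq_mul]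
  congr 1
  simp only [evalEval, eval_monomial, eval_mul, eval_pow, eval_C, one_mul]
  ring

lemma swap_coeff (P : K[X][Y]) (i j : ℕ) :
    ((Bivariate.swap P).coeff i).coeff j = (P.coeff j).coeff i := by
  induction P using Polynomial.induction_on' with
  | add p q hp hq => rw [map_add, coeff_add, coeff_add, coeff_add, coeff_add, hp, hq]
  | monomial n f =>
    induction f using Polynomial.induction_on' with
    | add p q hp hq =>
      rw [map_add, map_add, coeff_add, coeff_add, coeff_add, coeff_add, hp, hq]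
    | monomial m r =>
      rw [Bivariate.swap_monomial_monomial]
      simp only [coeff_monomial]
      split_ifs <;> simp [coeff_monomial, *]

lemma swap_bd {d e : ℕ} {P : K[X][Y]} (hP : Bd d e P) : Bd e d (Bivariate.swap P) := by
  intro i j h
  rw [swap_coeff]
  exact hP j i h.symm

lemma evalEval_swap (x y : K) (P : K[X][Y]) :
    evalEval x y (Bivariate.swap P) = evalEval y x P := by
  rw [← coe_aevalAeval_eq_evalEval, ← coe_aevalAeval_eq_evalEval]
  exact Bivariate.aevalAeval_swap x y P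

end biv

section elim

variable {K : Type} [Field K] [NumberField K]

lemma joint {ι ι₂ : Type} [Finite ι] [Finite ι₂] {a : ι → K} {b : ι₂ → K} (ha : a ≠ 0)
    (hb : b ≠ 0) : ∃ s t : K, s ≠ 0 ∧ t ≠ 0 ∧
      logHeight (Sum.elim (s • a) (t • b)) ≤ logHeight a + logHeight b := by
  obtain ⟨k0, hk⟩ := Function.ne_iff.mp ha
  obtain ⟨l0, hl⟩ := Function.ne_iff.mp hb
  simp only [Pi.zero_apply] at hk hl
  refine ⟨(a k0)⁻¹, (b l0)⁻¹, inv_ne_zero hk, inv_ne_zero hl, ?_⟩
  have hs : (a k0)⁻¹ • a ≠ 0 := smul_ne_zero (inv_ne_zero hk) ha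
  have ht : (b l0)⁻¹ • b ≠ 0 := smul_ne_zero (inv_ne_zero hl) hb
  have e : Sum.elim ((a k0)⁻¹ • a) ((b l0)⁻¹ • b) =
      (fun p : ι × ι₂ => ((a k0)⁻¹ • a) p.1 * ((b l0)⁻¹ • b) p.2) ∘
        (Sum.elim (fun i => (i, l0)) (fun j => (k0, j))) := by
    funext p
    rcases p with i | j
    · simp [inv_mul_cancel₀ hl]
    · simp [inv_mul_cancel₀ hk]
  rw [e]
  refine (logHeight_comp_le _ _).trans ?_
  rw [logHeight_fun_mul_eq hs ht, logHeight_smul_eq_logHeight _ (inv_ne_zero hk),
    logHeight_smul_eq_logHeight _ (inv_ne_zero hl)]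

/-- The combination `X A + Y Q`. -/
noncomputable def PB (K : Type) [Field K] (α' β d e N : ℕ) :
    ((Fin (α' + 1) × Fin (N + 1)) ⊕ (Fin (d + 1) × Fin (N + 1)) → K) →ₗ[K]
      ((Fin (d + 1) × Fin (e + 1)) ⊕ (Fin (α' + 1 + 1) × Fin (β + 1)) → K) →ₗ[K] K[X][Y] :=
  (LinearMap.mul K K[X][Y]).compl₁₂ (bp K α' N ∘ₗ LinearMap.funLeft K K Sum.inl)
      (bp K d e ∘ₗ LinearMap.funLeft K K Sum.inl) +
    (LinearMap.mul K K[X][Y]).compl₁₂ (bp K d N ∘ₗ LinearMap.funLeft K K Sum.inr)
      (bp K (α' + 1) β ∘ₗ LinearMap.funLeft K K Sum.inr)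

/-- The coefficients at the outer degrees `m, ..., m + n - 1`. -/
noncomputable def cs (K : Type) [Field K] (m n e : ℕ) : K[X][Y] →ₗ[K] (Fin n × Fin e → K) where
  toFun P p := (P.coeff (p.1 + m)).coeff p.2
  map_add' := by intros; funext p; simp
  map_smul' := by intros; funext p; simp

/-- Elimination of the outer variable. -/
theorem elim (α' β d e : ℕ) : ∃ C : ℝ, 0 ≤ C ∧ ∀ (Q A : K[X][Y]) (x y : K), Prime Q →
    Bd (α' + 1) β Q → Q.natDegree = α' + 1 → Bd d e A → ¬ Q ∣ A → evalEval y x Q = 0 →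
    evalEval y x A = 0 →
    logHeight₁ y ≤ C * (logHeight (cf K (α' + 1) β Q) + logHeight (cf K d e A) + 1) := by
  obtain ⟨N, hN⟩ : ∃ N, N = (α' + 1 + d) * (β + e) := ⟨_, rfl⟩
  obtain ⟨C1, hC1, h1⟩ := ker_bilin (K := K)
    (ι := (Fin (α' + 1) × Fin (N + 1)) ⊕ (Fin (d + 1) × Fin (N + 1)))
    (ι₂ := (Fin (d + 1) × Fin (e + 1)) ⊕ (Fin (α' + 1 + 1) × Fin (β + 1)))
    (ι' := Fin (α' + 1 + d) × Fin (N + β + e + 1)) (by
      simp only [Fintype.card_prod, Fintype.card_fin, Fintype.card_sum]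
      have h : (α' + 1 + d) * (N + β + e + 1) = (α' + 1 + d) * (N + 1) + N := by
        rw [show N + β + e + 1 = (N + 1) + (β + e) by ring, mul_add, ← hN]
      have h' : (α' + 1) * (N + 1) + (d + 1) * (N + 1) = (α' + 1 + d) * (N + 1) + (N + 1) := by
        ring
      rw [h, h']
      omega)
    ((PB K α' β d e N).compr₂ (cs K 1 (α' + 1 + d) (N + β + e + 1)))
  obtain ⟨C2, hC2, h2⟩ := bilin_le ((PB K α' β d e N).compr₂ (cs K 0 1 (N + β + e + 1)))
  obtain ⟨C3, hC3, h3⟩ := root_poly (K := K) (N + β + e)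
  refine ⟨C1 + C2 + C3 + 1, by positivity, fun Q A x y hQp hQb hQd hA hQA hQ0 hA0 => ?_⟩
  have hAne : A ≠ 0 := fun h => hQA (h ▸ dvd_zero Q)
  obtain ⟨s, t, hs, ht, hst⟩ := joint (cf_ne hA hAne) (cf_ne hQb hQp.ne_zero)
  set u := Sum.elim (s • cf K d e A) (t • cf K (α' + 1) β Q) with hu
  obtain ⟨z, hz0, hz1, hz2⟩ := h1 u
  set XX := bp K α' N (z ∘ Sum.inl) with hXX
  set YY := bp K d N (z ∘ Sum.inr) with hYY
  have hP : PB K α' β d e N z u = XX * (s • A) + YY * (t • Q) := by
    have e1 : bp K d e (u ∘ Sum.inl) = s • A := by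
      rw [hu, Sum.elim_comp_inl, map_smul, bp_cf hA]
    have e2 : bp K (α' + 1) β (u ∘ Sum.inr) = t • Q := by
      rw [hu, Sum.elim_comp_inr, map_smul, bp_cf hQb]
    rw [← e1, ← e2]
    rfl
  set P := PB K α' β d e N z u with hPdef
  have hPb : Bd (α' + 1 + d) (N + β + e) P := by
    rw [hP]
    have b1 : Bd (α' + d) (N + e) (XX * (s • A)) := by
      refine (bp_bd _).mul ?_
      intro i j h
      rw [coeff_smul, coeff_smul, hA i j h, smul_zero]
    have b2 : Bd (d + (α' + 1)) (N + β) (YY * (t • Q)) := by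
      refine (bp_bd _).mul ?_
      intro i j h
      rw [coeff_smul, coeff_smul, hQb i j h, smul_zero]
    exact (b1.mono (by omega) (by omega)).add (b2.mono (by omega) (by omega))
  have hPC : P = C (P.coeff 0) := by
    ext i j
    rw [coeff_C]
    split_ifs with hi
    · rw [hi]
    · rw [coeff_zero]
      by_cases hb : α' + 1 + d < i ∨ N + β + e < j
      · exact hPb i j hb
      · have h4 := congrFun hz1 (⟨i - 1, by omega⟩, ⟨j, by omega⟩)
        have h5 : (P.coeff (i - 1 + 1)).coeff j = 0 := h4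
        rwa [Nat.sub_add_cancel (by omega)] at h5
  have hR0 : P.coeff 0 ≠ 0 := by
    intro h
    rw [h, C_0] at hPC
    rw [hPC] at hP
    have h6 : Q ∣ XX := by
      have h7 : Q ∣ XX * A := by
        have : XX * A = Q * (-(s⁻¹ • t • YY)) := by
          have h8 : s • (XX * A) = -(t • (YY * Q)) := by
            rw [mul_smul_comm, mul_smul_comm] at hP
            exact eq_neg_of_add_eq_zero_left hP.symm
          have h9 : XX * A = s⁻¹ • (s • (XX * A)) := by rw [smul_smul, inv_mul_cancel₀ hs, one_smul]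
          rw [h9, h8, smul_neg, mul_comm YY Q, ← mul_smul_comm, ← mul_smul_comm]
          exact (mul_neg Q _).symm
        rw [this]
        exact dvd_mul_right _ _
      exact (hQp.dvd_or_dvd h7).resolve_right hQA
    have hXX0 : XX = 0 := by
      by_contra hne
      have := natDegree_le_of_dvd h6 hne
      have h8 : XX.natDegree ≤ α' := (bp_bd _).natDegree_le
      omega
    have hYY0 : YY = 0 := by
      rw [hXX0, zero_mul, zero_add] at hP
      exact (mul_eq_zero.1 hP.symm).resolve_right (smul_ne_zero ht hQp.ne_zero)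
    apply hz0
    have z1 : z ∘ Sum.inl = 0 := by
      by_contra hne
      exact bp_ne hne hXX0
    have z2 : z ∘ Sum.inr = 0 := by
      by_contra hne
      exact bp_ne hne hYY0
    funext p
    rcases p with p | p
    · exact congrFun z1 p
    · exact congrFun z2 p
  have hRd : (P.coeff 0).natDegree ≤ N + β + e := by
    rw [natDegree_le_iff_coeff_eq_zero]
    intro j hj
    exact hPb 0 j (Or.inr hj)
  have hRy : (P.coeff 0).eval y = 0 := by
    have h4 : evalEval y x P = 0 := by
      rw [hP, evalEval_add, evalEval_mul, evalEval_mul, evalEval_smul, evalEval_smul, hQ0, hA0]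
      simp
    rw [hPC, evalEval_C] at h4
    exact h4
  have h4 := h3 (P.coeff 0) y hR0 hRd hRy
  have h5 := h2 z u
  have h6 : logHeight (fun l : Fin (N + β + e + 1) => (P.coeff 0).coeff l) ≤
      logHeight (((PB K α' β d e N).compr₂ (cs K 0 1 (N + β + e + 1))) z u) := by
    have : (fun l : Fin (N + β + e + 1) => (P.coeff 0).coeff l) =
        (((PB K α' β d e N).compr₂ (cs K 0 1 (N + β + e + 1))) z u) ∘ (fun l => (0, l)) := by
      funext l
      rfl
    rw [this]
    exact logHeight_comp_le _ _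
  have h7 := logHeight_nonneg (cf K (α' + 1) β Q)
  have h8 := logHeight_nonneg (cf K d e A)
  have h9 := logHeight_nonneg u
  have h10 : logHeight u ≤ logHeight (cf K (α' + 1) β Q) + logHeight (cf K d e A) := by linarith
  set S := logHeight (cf K (α' + 1) β Q) + logHeight (cf K d e A) with hS
  have h11 : logHeight₁ y ≤ C3 + (C2 + C1 * (logHeight u + 1) + logHeight u) := by linarith
  have h12 : C1 * (logHeight u + 1) ≤ C1 * (S + 1) :=
    mul_le_mul_of_nonneg_left (by linarith) hC1
  nlinarith [mul_nonneg hC2 (by linarith : 0 ≤ S), mul_nonneg hC3 (by linarith : 0 ≤ S)]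

end elim

end Pool.Agent.J4H41.GC
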