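import Pool.Agent.J4H41.GC.Biv

/-!
# The inequality `α h(x) - β h(y) ≤ τ h(x) + C (h(Q) + 1)` on the curve `Q = 0`

Part of QE of project GC (helper27), written by helper41.
-/

set_option autoImplicit false

open Height Polynomial
open scoped Polynomial.Bivariate

namespace Pool.Agent.J4H41.GC

section half

variable {K : Type} [Field K] [NumberField K]

/-- Values of the lower and the upper part. -/
noncomputable def TB (K : Type) [Field K] (α' p q : ℕ) :
    (Fin (α' + p + 1) × Fin (q + 1) → K) →ₗ[K] (Fin (α' + 1) × Fin (q + 1) → K) →ₗ[K]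
      (Fin 2 → K) :=
  LinearMap.mk₂ K (fun f w => ![∑ r : Fin (α' + 1) × Fin (q + 1),
      f (Fin.castLE (by omega) r.1, r.2) * w r,
      ∑ r : Fin (α' + 1) × Fin (q + 1), f (⟨(r.1 : ℕ) + p, by omega⟩, r.2) * w r])
    (by
      intros
      funext i
      fin_cases i <;> simp [add_mul, Finset.sum_add_distrib])
    (by
      intros
      funext i
      fin_cases i <;> simp [mul_assoc, Finset.mul_sum])
    (by
      intros
      funext i
      fin_cases i <;> simp [mul_add, Finset.sum_add_distrib])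
    (by
      intros
      funext i
      fin_cases i <;>
        simp only [Pi.smul_apply, smul_eq_mul, Finset.mul_sum, Fin.zero_eta, Fin.isValue,
          Matrix.cons_val_zero, Fin.mk_one, Matrix.cons_val_one, Matrix.cons_val_fin_one] <;>
        exact Finset.sum_congr rfl fun _ _ => by ring)

theorem half (α' β' : ℕ) (τ : ℝ) (hτ : 0 < τ) : ∃ C : ℝ, 0 ≤ C ∧ ∀ (Q : K[X][Y]) (x y : K),
    Prime Q → Bd (α' + 1) (β' + 1) Q → Q.natDegree = α' + 1 →
    (Bivariate.swap Q).natDegree = β' + 1 → evalEval y x Q = 0 →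
    (α' + 1) * logHeight₁ x - (β' + 1) * logHeight₁ y ≤
      τ * logHeight₁ x + C * (logHeight (cf K (α' + 1) (β' + 1) Q) + 1) := by
  obtain ⟨k', hk'⟩ := exists_nat_ge ((α' : ℝ) / τ)
  obtain ⟨p, hp⟩ : ∃ p, p = (α' + 1) * (k' + 1) := ⟨_, rfl⟩
  obtain ⟨q, hq⟩ : ∃ q, q = (β' + 1) * (k' + 1) := ⟨_, rfl⟩
  obtain ⟨c, hc⟩ : ∃ c, c = (α' + 1) * k' := ⟨_, rfl⟩
  obtain ⟨m, hm⟩ : ∃ m, m = (β' + 1) * k' := ⟨_, rfl⟩
  have hpc : p = c + α' + 1 := by rw [hp, hc]; ring
  have hqm : q = m + (β' + 1) := by rw [hq, hm]; ring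
  -- the linear system for the multiplier
  let MB : (Fin (α' + c + 1) × Fin (m + 1) → K) →ₗ[K]
      (Fin (α' + 1 + 1) × Fin (β' + 1 + 1) → K) →ₗ[K] K[X][Y] :=
    (LinearMap.mul K K[X][Y]).compl₁₂ (bp K (α' + c) m) (bp K (α' + 1) (β' + 1))
  obtain ⟨C1, hC1, h1⟩ := ker_bilin (K := K)
    (ι := Fin (α' + c + 1) × Fin (m + 1))
    (ι₂ := Fin (α' + 1 + 1) × Fin (β' + 1 + 1))
    (ι' := Fin c × Fin (q + 1)) (by
      simp only [Fintype.card_prod, Fintype.card_fin]
      have h : c * (q + 1) = c * (m + 1) + (α' + 1) * m := by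
        rw [hqm, hc, hm]; ring
      have h' : (α' + c + 1) * (m + 1) = c * (m + 1) + (α' + 1) * m + (α' + 1) := by ring
      rw [h, h']
      omega)
    (MB.compr₂ (cs K (α' + 1) c (q + 1)))
  obtain ⟨C2, hC2, h2⟩ := bilin_le (MB.compr₂ (cf K (α' + p) q))
  obtain ⟨C3, hC3, h3⟩ := bilin_le (TB K α' p q)
  obtain ⟨C4, h4⟩ := pw_le (K := K) α'
  obtain ⟨C5, h5⟩ := pw_le (K := K) q
  obtain ⟨C6, hC6, h6⟩ := elim (K := K) β' (α' + 1) q α'
  refine ⟨C1 + C2 + C3 + |C4| + |C5| + 1 + (α' + 1) * (C6 * (C1 + C2 + 3)), by positivity,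
    fun Q x y hQp hQb hQd hQs hQ0 => ?_⟩
  have hx0 := zero_le_logHeight₁ x
  have hy0 := zero_le_logHeight₁ y
  set H := logHeight (cf K (α' + 1) (β' + 1) Q) with hH
  have hH0 : 0 ≤ H := logHeight_nonneg _
  obtain ⟨z, hz0, hz1, hz2⟩ := h1 (cf K (α' + 1) (β' + 1) Q)
  set CC := bp K (α' + c) m z with hCC
  have hCCb : Bd (α' + c) m CC := bp_bd z
  have hCC0 : CC ≠ 0 := bp_ne hz0
  obtain ⟨F, hF⟩ : ∃ F, F = CC * Q := ⟨_, rfl⟩
  have hMB : MB z (cf K (α' + 1) (β' + 1) Q) = F := by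
    have : MB z (cf K (α' + 1) (β' + 1) Q) = bp K (α' + c) m z *
      bp K (α' + 1) (β' + 1) (cf K (α' + 1) (β' + 1) Q) := rfl
    rw [this, bp_cf hQb, hF]
  have hFb : Bd (α' + p) q F := by
    rw [hF]
    exact (hCCb.mul hQb).mono (by omega) (by omega)
  have hmid : ∀ i, α' + 1 ≤ i → i < p → F.coeff i = 0 := by
    intro i hi hi'
    ext j
    rw [coeff_zero]
    by_cases hb : q < j
    · exact hFb i j (Or.inr hb)
    · have h7 := congrFun hz1 (⟨i - (α' + 1), by omega⟩, ⟨j, by omega⟩)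
      have h8 : ((MB z (cf K (α' + 1) (β' + 1) Q)).coeff (i - (α' + 1) + (α' + 1))).coeff j = 0 := h7
      rwa [hMB, Nat.sub_add_cancel hi] at h8
  obtain ⟨f, hf⟩ : ∃ f, f = cf K (α' + p) q F := ⟨_, rfl⟩
  set A := bp K α' q (fun r => f (⟨(r.1 : ℕ) + p, by omega⟩, r.2)) with hA
  set B := bp K α' q (fun r => f (Fin.castLE (by omega) r.1, r.2)) with hB
  have hFAB : F = B + X ^ p * A := by
    ext i j
    rw [coeff_add, coeff_X_pow_mul', coeff_add]
    by_cases h7 : i < α' + 1
    · rw [if_neg (by omega), coeff_zero, add_zero]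
      by_cases h8 : j < q + 1
      · have h10 := bp_coeff (fun r : Fin (α' + 1) × Fin (q + 1) =>
            f (Fin.castLE (by omega) r.1, r.2)) ⟨i, h7⟩ ⟨j, h8⟩
        simp only at h10
        rw [hB, h10, hf, cf_apply]
        rfl
      · rw [hFb i j (Or.inr (by omega)), hB, bp_bd _ i j (Or.inr (by omega))]
    · have hB0 : (B.coeff i).coeff j = 0 := bp_bd _ i j (Or.inl (by omega))
      rw [hB0, zero_add]
      by_cases h8 : i < p
      · rw [if_neg (by omega), hmid i (by omega) h8]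
      · rw [if_pos (by omega)]
        by_cases h9 : i - p < α' + 1 ∧ j < q + 1
        · have h10 := bp_coeff (fun r : Fin (α' + 1) × Fin (q + 1) =>
            f (⟨(r.1 : ℕ) + p, by omega⟩, r.2)) ⟨i - p, h9.1⟩ ⟨j, h9.2⟩
          simp only at h10
          rw [hA, h10, hf, cf_apply]
          simp only
          rw [Nat.sub_add_cancel (by omega)]
        · rw [hFb i j (by omega), hA, bp_bd _ (i - p) j (by omega)]
  have hF0 : F ≠ 0 := by
    rw [hF]
    exact mul_ne_zero hCC0 hQp.ne_zero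
  have hAb : Bd α' q A := bp_bd _
  have hA0 : A ≠ 0 := by
    intro h
    rw [h, mul_zero, add_zero] at hFAB
    have h7 : F.natDegree = CC.natDegree + Q.natDegree := by
      rw [hF]
      exact natDegree_mul hCC0 hQp.ne_zero
    have h8 : F.natDegree ≤ α' := by
      rw [hFAB]
      exact (bp_bd _).natDegree_le
    omega
  have hQA : ¬ Q ∣ A := by
    intro h
    have h7 := natDegree_le_of_dvd h hA0
    have h8 := hAb.natDegree_le
    omega
  have hval : evalEval y x B + x ^ p * evalEval y x A = 0 := by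
    have h7 : evalEval y x F = 0 := by rw [hF, evalEval_mul, hQ0, mul_zero]
    rw [hFAB, evalEval_add, evalEval_mul, evalEval_pow, evalEval_X] at h7
    exact h7
  have hf2 : logHeight f ≤ C2 + C1 * (H + 1) + H := by
    have h7 := h2 z (cf K (α' + 1) (β' + 1) Q)
    have h8 : (MB.compr₂ (cf K (α' + p) q)) z (cf K (α' + 1) (β' + 1) Q) = f := by
      rw [hf, ← hMB]
      rfl
    rw [h8] at h7
    linarith
  have hw : logHeight (fun r : Fin (α' + 1) × Fin (q + 1) => pw α' x r.1 * pw q y r.2) ≤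
      C4 + α' * logHeight₁ x + (C5 + q * logHeight₁ y) := by
    rw [logHeight_fun_mul_eq (pw_ne α' x) (pw_ne q y)]
    exact add_le_add (h4 x) (h5 y)
  have hT : TB K α' p q f (fun r => pw α' x r.1 * pw q y r.2) =
      ![evalEval y x B, evalEval y x A] := by
    rw [hB, hA, evalEval_bp, evalEval_bp]
    rfl
  have h12 := le_abs_self C4
  have h13 := le_abs_self C5
  have h12' := abs_nonneg C4
  have h13' := abs_nonneg C5
  by_cases hAv : evalEval y x A = 0
  · -- both polynomials vanish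
    have hs : Prime (Bivariate.swap Q) :=
      (MulEquiv.prime_iff (Bivariate.swap (R := K)).toMulEquiv).2 hQp
    have h7 := h6 (Bivariate.swap Q) (Bivariate.swap A) y x hs (swap_bd hQb) hQs (swap_bd hAb)
      (by
        intro h
        apply hQA
        have := map_dvd (Bivariate.swap (R := K)) h
        rwa [Bivariate.swap_swap_apply, Bivariate.swap_swap_apply] at this)
      (by rw [evalEval_swap]; exact hQ0) (by rw [evalEval_swap]; exact hAv)
    have h8 : logHeight (cf K (β' + 1) (α' + 1) (Bivariate.swap Q)) ≤ H := by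
      have : cf K (β' + 1) (α' + 1) (Bivariate.swap Q) =
          cf K (α' + 1) (β' + 1) Q ∘ Prod.swap := by
        funext r
        rw [cf_apply, swap_coeff]
        rfl
      rw [this]
      exact logHeight_comp_le _ _
    have h9 : logHeight (cf K q α' (Bivariate.swap A)) ≤ logHeight f := by
      have : cf K q α' (Bivariate.swap A) =
          f ∘ (fun r : Fin (q + 1) × Fin (α' + 1) => (⟨(r.2 : ℕ) + p, by omega⟩, r.1)) := by
        funext r
        rw [cf_apply, swap_coeff, hA]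
        exact bp_coeff _ r.2 r.1
      rw [this]
      exact logHeight_comp_le _ _
    have h10 : logHeight₁ x ≤ C6 * ((C1 + C2 + 3) * (H + 1)) := by
      refine h7.trans (mul_le_mul_of_nonneg_left ?_ hC6)
      linarith [mul_nonneg hC2 hH0]
    have h11 : ((α' : ℝ) + 1) * logHeight₁ x ≤ (α' + 1) * (C6 * ((C1 + C2 + 3) * (H + 1))) :=
      mul_le_mul_of_nonneg_left h10 (by positivity)
    have h14 : 0 ≤ (C1 + C2 + C3 + |C4| + |C5| + 1) * (H + 1) := by positivity
    have h15 : 0 ≤ ((β' : ℝ) + 1) * logHeight₁ y := by positivity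
    have h16 : 0 ≤ τ * logHeight₁ x := by positivity
    have h17 : (C1 + C2 + C3 + |C4| + |C5| + 1 + (α' + 1) * (C6 * (C1 + C2 + 3))) * (H + 1) =
        (C1 + C2 + C3 + |C4| + |C5| + 1) * (H + 1) + (α' + 1) * (C6 * ((C1 + C2 + 3) * (H + 1))) := by
      ring
    rw [h17]
    linarith
  · have h7 : x ^ p = -(evalEval y x B / evalEval y x A) := by
      field_simp
      linear_combination hval
    have h8 : (p : ℝ) * logHeight₁ x ≤ C3 + logHeight f +
        (C4 + α' * logHeight₁ x + (C5 + q * logHeight₁ y)) := by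
      rw [← logHeight₁_pow, h7, logHeight₁_neg, logHeight₁_div_eq_logHeight, ← hT]
      refine (h3 _ _).trans ?_
      linarith
    have hpR : (p : ℝ) = (α' + 1) * (k' + 1) := by rw [hp]; push_cast; ring
    have hqR : (q : ℝ) = (β' + 1) * (k' + 1) := by rw [hq]; push_cast; ring
    rw [hpR, hqR] at h8
    have hk1 : (0 : ℝ) < k' + 1 := by positivity
    have hα : (α' : ℝ) ≤ τ * (k' + 1) := by
      rw [div_le_iff₀ hτ] at hk'
      linarith
    have h9 : (k' + 1 : ℝ) * ((α' + 1) * logHeight₁ x - (β' + 1) * logHeight₁ y) ≤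
        (k' + 1) * (τ * logHeight₁ x) + (C1 + C2 + C3 + |C4| + |C5| + 1) * (H + 1) := by
      have h10 : (α' : ℝ) * logHeight₁ x ≤ τ * (k' + 1) * logHeight₁ x :=
        mul_le_mul_of_nonneg_right hα hx0
      linarith [mul_nonneg hC2 hH0, mul_nonneg hC3 hH0, mul_nonneg h12' hH0,
        mul_nonneg h13' hH0]
    have h10 : (C1 + C2 + C3 + |C4| + |C5| + 1) * (H + 1) ≤
        (k' + 1) * ((C1 + C2 + C3 + |C4| + |C5| + 1) * (H + 1)) := by
      have h18 : 0 ≤ (C1 + C2 + C3 + |C4| + |C5| + 1) * (H + 1) := by positivity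
      have h19 : (0 : ℝ) ≤ k' := by positivity
      have h20 := mul_nonneg h19 h18
      rw [add_mul, one_mul]
      linarith
    have h11 : (k' + 1 : ℝ) * ((α' + 1) * logHeight₁ x - (β' + 1) * logHeight₁ y) ≤
        (k' + 1) * (τ * logHeight₁ x + (C1 + C2 + C3 + |C4| + |C5| + 1) * (H + 1)) := by
      rw [mul_add]
      linarith
    have h14 := le_of_mul_le_mul_left h11 hk1
    have h15 : 0 ≤ ((α' : ℝ) + 1) * (C6 * (C1 + C2 + 3)) * (H + 1) := by positivity
    have h16 : (C1 + C2 + C3 + |C4| + |C5| + 1 + (α' + 1) * (C6 * (C1 + C2 + 3))) * (H + 1) =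
        (C1 + C2 + C3 + |C4| + |C5| + 1) * (H + 1) + (α' + 1) * (C6 * (C1 + C2 + 3)) * (H + 1) := by
      ring
    rw [h16]
    linarith

end half

end Pool.Agent.J4H41.GC
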