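import Pool.Agent.J4H27.GC.Defs

/-!
# Heights of the images of linear and bilinear maps, small kernel vectors, roots of polynomials

Part of QE of project GC (helper27), written by helper41.
-/

set_option autoImplicit false

open Height

namespace Pool.Agent.J4H41.GC

section lin

variable {K : Type} [Field K] [NumberField K]

/-- Uniform constants for finite families. -/
lemma unif {τ S : Type} [Finite τ] {f : τ → S → ℝ} {g : S → ℝ}
    (h : ∀ t, ∃ C : ℝ, ∀ s, f t s ≤ C + g s) : ∃ C : ℝ, 0 ≤ C ∧ ∀ t s, f t s ≤ C + g s := by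
  classical
  choose c hc using h
  have := Fintype.ofFinite τ
  refine ⟨∑ t, |c t|, Finset.sum_nonneg fun _ _ => abs_nonneg _, fun t s => ?_⟩
  have h1 : c t ≤ ∑ t, |c t| := (le_abs_self _).trans
    (Finset.single_le_sum (f := fun t => |c t|) (fun _ _ => abs_nonneg _) (Finset.mem_univ t))
  linarith [hc t s]

lemma lin_le {ι ι' : Type} [Fintype ι] [Finite ι'] (L : (ι → K) →ₗ[K] (ι' → K)) :
    ∃ C : ℝ, ∀ x, logHeight (L x) ≤ C + logHeight x := by
  classical
  refine ⟨totalWeight K * Real.log (Nat.card ι) +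
    logHeight (fun p : ι' × ι => L (Pi.single p.2 1) p.1), fun x => ?_⟩
  have h := logHeight_linearMap_apply_le (fun p : ι' × ι => L (Pi.single p.2 1) p.1) x
  have e : L x = fun j => ∑ i, L (Pi.single i 1) j * x i := by
    conv_lhs => rw [← LinearMap.sum_single_apply (φ := fun _ : ι => K) x, map_sum]
    funext j
    rw [Finset.sum_apply]
    refine Finset.sum_congr rfl fun i _ => ?_
    have h1 : (Pi.single i (x i) : ι → K) = x i • (Pi.single i 1 : ι → K) := by
      rw [← Pi.single_smul, smul_eq_mul, mul_one]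
    rw [h1, map_smul, Pi.smul_apply, smul_eq_mul, mul_comm]
  rw [e]
  exact h

lemma bilin_le {ι ι₂ ι' : Type} [Fintype ι] [Fintype ι₂] [Finite ι']
    (B : (ι → K) →ₗ[K] (ι₂ → K) →ₗ[K] (ι' → K)) :
    ∃ C : ℝ, 0 ≤ C ∧ ∀ x y, logHeight (B x y) ≤ C + logHeight x + logHeight y := by
  classical
  let L : (ι × ι₂ → K) →ₗ[K] (ι' → K) :=
    Fintype.linearCombination K (fun p : ι × ι₂ => B (Pi.single p.1 1) (Pi.single p.2 1))
  obtain ⟨C, hC⟩ := lin_le L
  refine ⟨|C|, abs_nonneg _, fun x y => ?_⟩
  have hCa := le_abs_self C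
  by_cases hx : x = 0
  · rw [hx, map_zero, LinearMap.zero_apply, logHeight_zero, logHeight_zero]
    have := logHeight_nonneg y
    positivity
  by_cases hy : y = 0
  · rw [hy, map_zero, logHeight_zero, logHeight_zero]
    have := logHeight_nonneg x
    positivity
  have e : B x y = L (fun a : ι × ι₂ => x a.1 * y a.2) := by
    have hx1 : x = ∑ i, x i • (Pi.single i 1 : ι → K) := by
      conv_lhs => rw [← LinearMap.sum_single_apply (φ := fun _ : ι => K) x]
      refine Finset.sum_congr rfl fun i _ => ?_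
      rw [← Pi.single_smul, smul_eq_mul, mul_one]
    have hy1 : y = ∑ i, y i • (Pi.single i 1 : ι₂ → K) := by
      conv_lhs => rw [← LinearMap.sum_single_apply (φ := fun _ : ι₂ => K) y]
      refine Finset.sum_congr rfl fun i _ => ?_
      rw [← Pi.single_smul, smul_eq_mul, mul_one]
    conv_lhs => rw [hx1, hy1]
    rw [Fintype.linearCombination_apply, Fintype.sum_prod_type]
    simp only [map_sum, LinearMap.sum_apply, map_smul, LinearMap.smul_apply]
    rw [Finset.sum_comm]
    refine Finset.sum_congr rfl fun i _ => ?_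
    rw [Finset.smul_sum]
    refine Finset.sum_congr rfl fun j _ => ?_
    rw [smul_smul, mul_comm]
  rw [e]
  refine (hC _).trans ?_
  rw [logHeight_fun_mul_eq hx hy]
  linarith

end lin

/-! ### Small kernel vectors -/

section ker

variable {K : Type} [Field K] [NumberField K]

/-- Elimination of the variable `j0` with the equation `i0`. -/
noncomputable def elimB (K : Type) [Field K] {m n : ℕ} (i0 : Fin (m + 1)) (j0 : Fin (n + 1)) :
    (Fin (m + 1) × Fin (n + 1) → K) →ₗ[K] (Fin (m + 1) × Fin (n + 1) → K) →ₗ[K]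
      (Fin m × Fin n → K) :=
  LinearMap.mk₂ K (fun M N p => M (i0, j0) * N (i0.succAbove p.1, j0.succAbove p.2) -
      M (i0.succAbove p.1, j0) * N (i0, j0.succAbove p.2))
    (by intros; funext p; simp only [Pi.add_apply]; ring)
    (by intros; funext p; simp only [Pi.smul_apply, smul_eq_mul]; ring)
    (by intros; funext p; simp only [Pi.add_apply]; ring)
    (by intros; funext p; simp only [Pi.smul_apply, smul_eq_mul]; ring)

/-- Back substitution. -/
noncomputable def backB (K : Type) [Field K] {m n : ℕ} (i0 : Fin (m + 1)) (j0 : Fin (n + 1)) :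
    (Fin (m + 1) × Fin (n + 1) → K) →ₗ[K] (Fin n → K) →ₗ[K] (Fin (n + 1) → K) :=
  LinearMap.mk₂ K (fun M x => j0.insertNth (α := fun _ => K)
      (-∑ j, M (i0, j0.succAbove j) * x j) (fun j => M (i0, j0) * x j))
    (by
      intros
      funext p
      refine Fin.succAboveCases j0 ?_ (fun j => ?_) p
      · simp only [Fin.insertNth_apply_same, Pi.add_apply, add_mul, Finset.sum_add_distrib]
        ring
      · simp only [Fin.insertNth_apply_succAbove, Pi.add_apply, add_mul])
    (by
      intros
      funext p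
      refine Fin.succAboveCases j0 ?_ (fun j => ?_) p
      · simp only [Fin.insertNth_apply_same, Pi.smul_apply, smul_eq_mul, mul_neg, Finset.mul_sum,
          mul_assoc]
      · simp only [Fin.insertNth_apply_succAbove, Pi.smul_apply, smul_eq_mul, mul_assoc])
    (by
      intros
      funext p
      refine Fin.succAboveCases j0 ?_ (fun j => ?_) p
      · simp only [Fin.insertNth_apply_same, Pi.add_apply, mul_add, Finset.sum_add_distrib]
        ring
      · simp only [Fin.insertNth_apply_succAbove, Pi.add_apply, mul_add])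
    (by
      intros
      funext p
      refine Fin.succAboveCases j0 ?_ (fun j => ?_) p
      · simp only [Fin.insertNth_apply_same, Pi.smul_apply, smul_eq_mul, mul_neg, Finset.mul_sum]
        congr 1
        exact Finset.sum_congr rfl fun _ _ => by ring
      · simp only [Fin.insertNth_apply_succAbove, Pi.smul_apply, smul_eq_mul]
        ring)

theorem ker_fin (m : ℕ) : ∀ n, m < n → ∃ C : ℝ, 0 ≤ C ∧ ∀ M : Fin m × Fin n → K,
    ∃ x : Fin n → K, x ≠ 0 ∧ (∀ i, ∑ j, M (i, j) * x j = 0) ∧
      logHeight x ≤ C * (logHeight M + 1) := by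
  induction m with
  | zero =>
    intro n hn
    obtain ⟨n, rfl⟩ : ∃ k, n = k + 1 := ⟨n - 1, by omega⟩
    refine ⟨logHeight (Pi.single 0 1 : Fin (n + 1) → K), logHeight_nonneg _, fun M =>
      ⟨Pi.single 0 1, ?_, fun i => i.elim0, ?_⟩⟩
    · intro h
      have := congrFun h 0
      simp at this
    · have h1 := logHeight_nonneg M
      have h2 := logHeight_nonneg (Pi.single 0 1 : Fin (n + 1) → K)
      nlinarith
  | succ m ih =>
    intro n hn
    obtain ⟨n, rfl⟩ : ∃ k, n = k + 1 := ⟨n - 1, by omega⟩
    obtain ⟨C1, hC1, h1⟩ := ih n (by omega)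
    obtain ⟨C2, hC2, h2⟩ := unif (τ := Fin (m + 1) × Fin (n + 1))
      (S := Fin (m + 1) × Fin (n + 1) → K)
      (f := fun t M => logHeight (elimB K t.1 t.2 M M)) (g := fun M => 2 * logHeight M) (by
        intro t
        obtain ⟨C, -, hC⟩ := bilin_le (elimB K t.1 t.2)
        exact ⟨C, fun M => (hC M M).trans (by linarith)⟩)
    obtain ⟨C3, hC3, h3⟩ := unif (τ := Fin (m + 1) × Fin (n + 1))
      (S := (Fin (m + 1) × Fin (n + 1) → K) × (Fin n → K))
      (f := fun t s => logHeight (backB K t.1 t.2 s.1 s.2))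
      (g := fun s => logHeight s.1 + logHeight s.2) (by
        intro t
        obtain ⟨C, -, hC⟩ := bilin_le (backB K t.1 t.2)
        exact ⟨C, fun s => (hC s.1 s.2).trans (by linarith)⟩)
    refine ⟨logHeight (Pi.single 0 1 : Fin (n + 1) → K) + C3 + 1 + C1 * (C2 + 2 + 1), by
      have := logHeight_nonneg (Pi.single 0 1 : Fin (n + 1) → K)
      positivity, fun M => ?_⟩
    have hM0 := logHeight_nonneg M
    have hs0 := logHeight_nonneg (Pi.single 0 1 : Fin (n + 1) → K)
    by_cases hM : M = 0
    · refine ⟨Pi.single 0 1, ?_, fun i => by simp [hM], ?_⟩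
      · intro h
        have := congrFun h 0
        simp at this
      · have h4 : 0 ≤ C1 * (C2 + 2 + 1) := by positivity
        nlinarith [mul_nonneg h4 hM0, mul_nonneg hC3 hM0, mul_nonneg hs0 hM0]
    · obtain ⟨⟨i0, j0⟩, h0⟩ := Function.ne_iff.mp hM
      simp only [Pi.zero_apply] at h0
      obtain ⟨x, hx0, hx1, hx2⟩ := h1 (elimB K i0 j0 M M)
      refine ⟨backB K i0 j0 M x, ?_, ?_, ?_⟩
      · intro h
        apply hx0
        funext j
        have := congrFun h (j0.succAbove j)
        simp only [backB, LinearMap.mk₂_apply, Fin.insertNth_apply_succAbove, Pi.zero_apply,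
          mul_eq_zero] at this
        exact this.resolve_left h0
      · intro i
        rw [Fin.sum_univ_succAbove _ j0]
        simp only [backB, LinearMap.mk₂_apply, Fin.insertNth_apply_same,
          Fin.insertNth_apply_succAbove]
        refine Fin.succAboveCases i0 ?_ (fun i' => ?_) i
        · rw [mul_neg, neg_add_eq_zero, Finset.mul_sum]
          exact Finset.sum_congr rfl fun _ _ => by ring
        · have := hx1 i'
          simp only [elimB, LinearMap.mk₂_apply] at this
          rw [← this, mul_neg, Finset.mul_sum, neg_add_eq_sub, ← Finset.sum_sub_distrib]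
          exact Finset.sum_congr rfl fun _ _ => by ring
      · have h4 := h3 (i0, j0) (M, x)
        have h5 := h2 (i0, j0) M
        simp only at h4 h5
        have h6 : logHeight x ≤ C1 * (C2 + 2 * logHeight M + 1) :=
          hx2.trans (mul_le_mul_of_nonneg_left (by linarith) hC1)
        have h7 : C1 * (C2 + 2 * logHeight M + 1) ≤ C1 * (C2 + 2 + 1) * (logHeight M + 1) := by
          have : 0 ≤ C1 * C2 * logHeight M := by positivity
          have : 0 ≤ C1 * logHeight M := by positivity
          nlinarith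
        nlinarith [mul_nonneg hs0 hM0, mul_nonneg hC3 hM0]

/-- Small solutions of bilinear equations with more unknowns than equations. -/
theorem ker_bilin {ι ι₂ ι' : Type} [Fintype ι] [Fintype ι₂] [Fintype ι']
    (hc : Fintype.card ι' < Fintype.card ι) (B : (ι → K) →ₗ[K] (ι₂ → K) →ₗ[K] (ι' → K)) :
    ∃ C : ℝ, 0 ≤ C ∧ ∀ u : ι₂ → K, ∃ z : ι → K, z ≠ 0 ∧ B z u = 0 ∧
      logHeight z ≤ C * (logHeight u + 1) := by
  classical
  obtain ⟨C1, hC1, h1⟩ := ker_fin (K := K) (Fintype.card ι') (Fintype.card ι) hc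
  let e := Fintype.equivFin ι
  let e' := Fintype.equivFin ι'
  let L : (ι₂ → K) →ₗ[K] (Fin (Fintype.card ι') × Fin (Fintype.card ι) → K) :=
    { toFun := fun u p => B (Pi.single (e.symm p.2) 1) u (e'.symm p.1)
      map_add' := by intros; funext p; simp
      map_smul' := by intros; funext p; simp }
  obtain ⟨C2, h2⟩ := lin_le L
  refine ⟨C1 * (|C2| + 1), by positivity, fun u => ?_⟩
  obtain ⟨x, hx0, hx1, hx2⟩ := h1 (L u)
  refine ⟨x ∘ e, ?_, ?_, ?_⟩
  · intro h
    apply hx0
    funext j
    have := congrFun h (e.symm j)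
    simpa using this
  · funext i
    have h3 := hx1 (e' i)
    have hz : (x ∘ e) = ∑ k, x (e k) • (Pi.single k 1 : ι → K) := by
      conv_lhs => rw [← LinearMap.sum_single_apply (φ := fun _ : ι => K) (x ∘ e)]
      refine Finset.sum_congr rfl fun i _ => ?_
      rw [← Pi.single_smul, smul_eq_mul, mul_one, Function.comp_apply]
    rw [hz, map_sum, LinearMap.sum_apply, Finset.sum_apply, Pi.zero_apply, ← h3]
    rw [← e.sum_comp]
    refine Finset.sum_congr rfl fun k _ => ?_
    simp only [L, LinearMap.coe_mk, AddHom.coe_mk, Equiv.symm_apply_apply, map_smul,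
      LinearMap.smul_apply, Pi.smul_apply, smul_eq_mul]
    ring
  · rw [logHeight_comp_equiv e]
    have h3 := h2 u
    have h4 := le_abs_self C2
    have h5 := logHeight_nonneg u
    have h6 := abs_nonneg C2
    refine hx2.trans ?_
    rw [mul_assoc]
    refine mul_le_mul_of_nonneg_left ?_ hC1
    nlinarith

end ker

/-! ### Powers and roots -/

section roots

variable {K : Type} [Field K] [NumberField K]

/-- The powers `1, x, ..., x ^ n`. -/
def pw (n : ℕ) (x : K) : Fin (n + 1) → K := fun k => x ^ (k : ℕ)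

omit [NumberField K] in
lemma pw_ne (n : ℕ) (x : K) : pw n x ≠ 0 := by
  intro h
  have := congrFun h 0
  simp [pw] at this

lemma pw_ge (n : ℕ) (x : K) : n * logHeight₁ x ≤ logHeight (pw n x) := by
  rw [← logHeight₁_pow, logHeight₁_eq_logHeight]
  have : ![x ^ n, 1] = pw n x ∘ ![Fin.last n, 0] := by
    funext i
    fin_cases i <;> simp [pw]
  rw [this]
  exact logHeight_comp_le _ _

lemma pw_le (n : ℕ) : ∃ C : ℝ, ∀ x : K, logHeight (pw n x) ≤ C + n * logHeight₁ x := by
  obtain ⟨C, hC⟩ := logHeight_eval_le' (K := K) (ι := Fin 2) (N := n)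
    (p := fun k : Fin (n + 1) => MvPolynomial.X 0 ^ (k : ℕ) * MvPolynomial.X 1 ^ (n - (k : ℕ)))
    (by
      intro k
      have h : (k : ℕ) + (n - (k : ℕ)) = n := by omega
      have := (MvPolynomial.isHomogeneous_X_pow (R := K) (0 : Fin 2) (k : ℕ)).mul
        (MvPolynomial.isHomogeneous_X_pow (R := K) (1 : Fin 2) (n - (k : ℕ)))
      rwa [h] at this)
  refine ⟨C, fun x => ?_⟩
  have h := hC ![x, 1]
  rw [← logHeight₁_eq_logHeight] at h
  have e : (fun j : Fin (n + 1) => MvPolynomial.eval ![x, 1]
      (MvPolynomial.X 0 ^ (j : ℕ) * MvPolynomial.X 1 ^ (n - (j : ℕ)))) = pw n x := by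
    funext j
    simp [pw]
  rw [e] at h
  exact h

/-- `r_last * w` and minus the sum of the products of the others. -/
noncomputable def rootB (K : Type) [Field K] (m : ℕ) :
    (Fin (m + 2) → K) →ₗ[K] (Fin (m + 1) → K) →ₗ[K] (Fin (m + 2) → K) :=
  LinearMap.mk₂ K (fun r w => Fin.snoc (α := fun _ => K) (fun k => r (Fin.last _) * w k)
      (-∑ l : Fin (m + 1), r l.castSucc * w l))
    (by
      intros
      funext p
      refine Fin.lastCases ?_ (fun j => ?_) p
      · simp only [Fin.snoc_last, Pi.add_apply, add_mul, Finset.sum_add_distrib]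
        ring
      · simp only [Fin.snoc_castSucc, Pi.add_apply, add_mul])
    (by
      intros
      funext p
      refine Fin.lastCases ?_ (fun j => ?_) p
      · simp only [Fin.snoc_last, Pi.smul_apply, smul_eq_mul, mul_neg, Finset.mul_sum, mul_assoc]
      · simp only [Fin.snoc_castSucc, Pi.smul_apply, smul_eq_mul, mul_assoc])
    (by
      intros
      funext p
      refine Fin.lastCases ?_ (fun j => ?_) p
      · simp only [Fin.snoc_last, Pi.add_apply, mul_add, Finset.sum_add_distrib]
        ring
      · simp only [Fin.snoc_castSucc, Pi.add_apply, mul_add])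
    (by
      intros
      funext p
      refine Fin.lastCases ?_ (fun j => ?_) p
      · simp only [Fin.snoc_last, Pi.smul_apply, smul_eq_mul, mul_neg, Finset.mul_sum]
        congr 1
        exact Finset.sum_congr rfl fun _ _ => by ring
      · simp only [Fin.snoc_castSucc, Pi.smul_apply, smul_eq_mul]
        ring)

open Classical in
lemma root_aux (n : ℕ) : ∃ C : ℝ, ∀ s : (Fin (n + 1) → K) × K,
    (if s.1 (Fin.last n) ≠ 0 ∧ ∑ l, s.1 l * s.2 ^ (l : ℕ) = 0 then logHeight₁ s.2 else 0) ≤
      C + logHeight s.1 := by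
  cases n with
  | zero =>
    refine ⟨0, fun s => ?_⟩
    rw [if_neg]
    · have := logHeight_nonneg s.1
      linarith
    · rintro ⟨h1, h2⟩
      apply h1
      simpa using h2
  | succ m =>
    obtain ⟨C1, hC1, h1⟩ := bilin_le (rootB K m)
    obtain ⟨C2, h2⟩ := pw_le (K := K) m
    refine ⟨C1 + |C2|, fun s => ?_⟩
    have h0 := logHeight_nonneg s.1
    have h0' := le_abs_self C2
    split_ifs with h
    · obtain ⟨h3, h4⟩ := h
      have e : rootB K m s.1 (pw m s.2) = s.1 (Fin.last _) • pw (m + 1) s.2 := by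
        funext p
        refine Fin.lastCases ?_ (fun j => ?_) p
        · simp only [rootB, LinearMap.mk₂_apply, Fin.snoc_last, pw, Pi.smul_apply, smul_eq_mul,
            Fin.val_last]
          rw [Fin.sum_univ_castSucc] at h4
          simp only [Fin.val_last, Fin.val_castSucc] at h4
          linear_combination -h4
        · simp only [rootB, LinearMap.mk₂_apply, Fin.snoc_castSucc, pw, Pi.smul_apply, smul_eq_mul,
            Fin.val_castSucc]
      have h5 := h1 s.1 (pw m s.2)
      rw [e, logHeight_smul_eq_logHeight _ h3] at h5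
      have h6 := pw_ge (m + 1) s.2
      have h7 := h2 s.2
      push_cast at h6
      linarith
    · have := abs_nonneg C2
      linarith

open Classical in
lemma root_poly (D : ℕ) : ∃ C : ℝ, 0 ≤ C ∧ ∀ (R : Polynomial K) (y : K), R ≠ 0 →
    R.natDegree ≤ D → R.eval y = 0 →
    logHeight₁ y ≤ C + logHeight (fun l : Fin (D + 1) => R.coeff l) := by
  have h1 : ∀ n : Fin (D + 1), ∃ C : ℝ, ∀ s : (Fin (D + 1) → K) × K,
      (if s.1 n ≠ 0 ∧ ∑ l : Fin (n + 1), s.1 (Fin.castLE (by omega) l) * s.2 ^ (l : ℕ) = 0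
        then logHeight₁ s.2 else 0) ≤ C + logHeight s.1 := by
    intro n
    obtain ⟨C, hC⟩ := root_aux (K := K) n
    refine ⟨C, fun s => ?_⟩
    have hn : (n : ℕ) + 1 ≤ D + 1 := by omega
    have h2 := hC (s.1 ∘ Fin.castLE hn, s.2)
    have h3 : logHeight (s.1 ∘ Fin.castLE hn) ≤ logHeight s.1 := logHeight_comp_le _ _
    refine le_trans (le_of_eq ?_) (h2.trans (by simpa using h3))
    rfl
  obtain ⟨C, hC0, hC⟩ := unif (τ := Fin (D + 1)) (S := (Fin (D + 1) → K) × K)
    (f := fun n s => if s.1 n ≠ 0 ∧
      ∑ l : Fin (n + 1), s.1 (Fin.castLE (by omega) l) * s.2 ^ (l : ℕ) = 0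
        then logHeight₁ s.2 else 0) (g := fun s => logHeight s.1) h1
  refine ⟨C, hC0, fun R y hR hD hy => ?_⟩
  have h2 := hC ⟨R.natDegree, by omega⟩ (fun l : Fin (D + 1) => R.coeff l, y)
  simp only at h2
  rw [if_pos] at h2
  · exact h2
  · refine ⟨Polynomial.leadingCoeff_ne_zero.2 hR, ?_⟩
    rw [Polynomial.eval_eq_sum_range, ← Fin.sum_univ_eq_sum_range
      (fun i => R.coeff i * y ^ i)] at hy
    rw [← hy]
    rfl

end roots

end Pool.Agent.J4H41.GC
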